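import Pool.Agent.K7.H80.EC.Main2
import Pool.Agent.K7.H80.EC.Lower
import Pool.Agent.K7.H80.EC.Upper

/-!
# Empty subcubes in the random greedy square-free process: the threshold is of order `log d`

The definitions (`E`, `Copies`, `InCopy`, `SqFree`, `Ord`, `step`, `final`, `NE`, `EN`) are in
`Pool.Agent.K7.H80.EC.Stm`.
-/

set_option autoImplicit false

namespace Pool.Agent.Results.MP_fb8df7_pr.LogThreshold

open Filter Pool.Agent.K7.H80.EC

theorem result :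
    (∀ ε : ℝ, 0 < ε → ∀ k : ℕ → ℕ,
      (∀ᶠ d : ℕ in atTop, (k d : ℝ) ≤ (1 - ε) * Real.logb 2 d) →
      Tendsto (fun d : ℕ => EN d (k d)) atTop atTop) ∧
    (∀ ε : ℝ, 0 < ε → ∀ k : ℕ → ℕ, (∀ d, k d ≤ d) →
      (∀ᶠ d : ℕ in atTop, (4 / 3 + ε) * Real.logb 2 d ≤ k d) →
      Tendsto (fun d : ℕ => EN d (k d)) atTop (nhds 0)) :=
  main2 ub2 lb asyu2 asyl

end Pool.Agent.Results.MP_fb8df7_pr.LogThreshold
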